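import Pool.Agent.helper24_UT.Ch11

set_option autoImplicit false

/-!
# The formula of Hardy and Littlewood for `a p - b q = c` with `q` in almost all intervals of length `X ^ (1 / 3 + ε)`, for almost
# all `c`

Let `ε > 0`, `A` and `C` be fixed, let `X` be large, `X ^ (1 / 3 + ε) ≤ K ≤ X`, and let `a, b ≤ (log X) ^ C` be ANY coefficients. For
all but at most `X ^ 2 / (log X) ^ A` of the pairs of an integer `1 ≤ x ≤ X` and an integer `|c| ≤ X` for which `(a, b, c)`
satisfies the hypotheses of the question the number of the prime solutions of `a p - b q = c` with `q` in the short interval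
`(x, x + y]` is `𝔖(a, b, c) ∑ 1 / (log m log n)`, where the sum is over all solutions of `a m - b n = c` in integers `m ≥ 2`,
`x < n ≤ x + y`, `n ≥ 2`, up to an error of at most `K / (log X) ^ A`, for all `y ≤ K` simultaneously; the singular series is
positive. (The main term for `y = K` has the order of magnitude `𝔖 K / (a (log X) ^ 2)`, unless `c + b x` is negative or small.)

Proof. The differences `D` of the primes and their sieve model satisfy
`∑_{x ≤ X} |∑_{x < m ≤ x + K} D(m) e(m α)| ^ 2 ≤ X K ^ 2 / (log X) ^ A` uniformly in `α`, for `K ≥ X ^ (1 / 3 + ε)`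
(`Pool.Agent.helper24_UT.Ch.t_MK`; identity of Heath-Brown, Type II sums and divisor sums on the minor arcs, mean values of
Dirichlet polynomials, van der Corput's estimate and a bound of the type of Vinogradov and Korobov on the major arcs; the
method of Mikawa), and the same for the dilates of `D` supported on the multiples of `a`. This bounds the sums
`∑_{x < n ≤ x + K, a ∣ c + b n} w(n) D((c + b n) / a)` with arbitrary weights in mean square over `x` and `c` (`t_SUP`, `t_SAB`).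
-/

namespace Pool.Agent.Results.MP_bf63dc_nt.AlmostAllShortIntervals

open Finset

/-- the hypotheses of the question -/
def Adm (a b : ℕ) (c : ℤ) : Prop :=
  1 ≤ a ∧ 1 ≤ b ∧ c ≠ 0 ∧ IsCoprime (a : ℤ) b ∧ IsCoprime (a : ℤ) c ∧ IsCoprime (b : ℤ) c ∧ ¬ (Odd a ∧ Odd b ∧ Odd c)

/-- the singular series of `a p - b q = c` -/
noncomputable def series (a b : ℕ) (c : ℤ) : ℝ :=
  ∏' p : Nat.Primes, if ((p : ℕ) : ℤ) ∣ a * b * c then (1 - 1 / ((p : ℕ) : ℝ))⁻¹ else 1 - 1 / (((p : ℕ) : ℝ) - 1) ^ 2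

/-- the number of the prime solutions `(p, q)` of `a p - b q = c` with `q ≤ X` -/
noncomputable def count (a b : ℕ) (c : ℤ) (X : ℕ) : ℕ :=
  {x : ℕ × ℕ | x.1.Prime ∧ x.2.Prime ∧ (a : ℤ) * x.1 - b * x.2 = c ∧ x.2 ≤ X}.ncard

open Classical in
/-- the sum of `1 / (log m log n)` over all solutions of `a m - b n = c` in integers `m ≥ 2`, `2 ≤ n ≤ X` -/
noncomputable def expected (a b : ℕ) (c : ℤ) (X : ℕ) : ℝ :=
  ∑ n ∈ (Icc 2 X).filter (fun n : ℕ => (a : ℤ) ∣ c + b * n ∧ 2 * (a : ℤ) ≤ c + b * n),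
    1 / (Real.log (((c : ℝ) + b * n) / a) * Real.log n)

/-- The singular series is positive, and for all `y ≤ K` the number of the prime solutions with `x < q ≤ x + y` is the
singular series times the expected number, up to an error of at most `K / (log X) ^ A`. -/
def Good (A X K x a b : ℕ) (c : ℤ) : Prop :=
  0 < series a b c ∧ ∀ y : ℕ, y ≤ K →
    |((count a b c (x + y) : ℝ) - count a b c x) - series a b c * (expected a b c (x + y) - expected a b c x)| ≤
      K / (Real.log X) ^ A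

open Classical in
/-- the number of the pairs of `1 ≤ x ≤ X` and `|c| ≤ X` for which the hypotheses of the question are satisfied and `Good`
fails -/
noncomputable def exceptions (A X K a b : ℕ) : ℕ :=
  ((Icc 1 X ×ˢ Icc (-(X : ℤ)) X).filter (fun v : ℕ × ℤ => Adm a b v.2 ∧ ¬ Good A X K v.1 a b v.2)).card

theorem exists_solution {a b : ℕ} {c : ℤ} (h : Adm a b c) : ∃ p q : ℕ, (a : ℤ) * p - b * q = c := by
  obtain ⟨ha, hb, _, hab, _⟩ := h
  obtain ⟨u, v, huv⟩ := hab
  set k : ℤ := |c * u| + |c * v| with hk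
  have hk0 : 0 ≤ k := by positivity
  have h1 : 0 ≤ c * u + b * k := by
    have h2 : -|c * u| ≤ c * u := neg_abs_le _
    have h3 : k ≤ b * k := by
      have : (1 : ℤ) ≤ b := by exact_mod_cast hb
      nlinarith
    have h4 : 0 ≤ |c * v| := abs_nonneg _
    linarith
  have h2 : 0 ≤ -(c * v) + a * k := by
    have h2 : c * v ≤ |c * v| := le_abs_self _
    have h3 : k ≤ a * k := by
      have : (1 : ℤ) ≤ a := by exact_mod_cast ha
      nlinarith
    have h4 : 0 ≤ |c * u| := abs_nonneg _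
    linarith
  refine ⟨(c * u + b * k).toNat, (-(c * v) + a * k).toNat, ?_⟩
  rw [Int.toNat_of_nonneg h1, Int.toNat_of_nonneg h2]
  calc (a : ℤ) * (c * u + b * k) - b * (-(c * v) + a * k) = c * (u * a + v * b) := by ring
    _ = c := by rw [huv, mul_one]

/-- powers of the logarithm are small -/
lemma log_pow_le (C : ℕ) : ∃ N₁ : ℕ, ∀ N : ℕ, N₁ ≤ N → (Real.log N) ^ C ≤ N := by
  have h3 : ∀ᶠ x : ℝ in Filter.atTop, ‖Real.log x ^ C‖ ≤ 1 * ‖x‖ :=
    (Real.isLittleO_pow_log_id_atTop (n := C)).bound one_pos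
  have h3' := (tendsto_natCast_atTop_atTop (R := ℝ)).eventually h3
  obtain ⟨N₁, hN₁⟩ := Filter.eventually_atTop.1 h3'
  refine ⟨N₁, fun N hN => ?_⟩
  have h := hN₁ N hN
  rw [one_mul, Real.norm_eq_abs, Real.norm_eq_abs] at h
  calc (Real.log N) ^ C ≤ |(Real.log N) ^ C| := le_abs_self _
    _ ≤ |(N : ℝ)| := h
    _ = N := abs_of_nonneg (Nat.cast_nonneg N)

/-- **Prime solutions of `a p - b q = c` with `q` in almost all short intervals, for almost all `c`.** -/
theorem result (ε : ℝ) (A C : ℕ) (hε : 0 < ε) : ∃ X₀ : ℕ, ∀ X : ℕ, X₀ ≤ X → ∀ K : ℕ, (X : ℝ) ^ (1 / 3 + ε) ≤ K → K ≤ X →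
    ∀ a b : ℕ, (a : ℝ) ≤ (Real.log X) ^ C → (b : ℝ) ≤ (Real.log X) ^ C →
      (exceptions A X K a b : ℝ) ≤ (X : ℝ) ^ 2 / (Real.log X) ^ A := by
  classical
  obtain ⟨e, he⟩ := exists_nat_gt (1 / ε)
  have he1 : 1 ≤ e := by
    have h1 : 0 < 1 / ε := by positivity
    have h2 : (0 : ℝ) < e := h1.trans he
    exact_mod_cast h2
  have he0 : (0 : ℝ) < e := by exact_mod_cast he1
  have hle : 1 / (e : ℝ) ≤ ε := by
    rw [div_le_iff₀ he0]
    rw [div_lt_iff₀ hε] at he
    linarith
  obtain ⟨X₀, h⟩ := Pool.Agent.helper24_UT.Ch.t_R18 e A C he1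
  obtain ⟨H₁, hS⟩ := Pool.Agent.helper24_UT.Ser3.main
  obtain ⟨N₁, hN₁⟩ := log_pow_le C
  refine ⟨max (max X₀ H₁) (max N₁ 1), fun X hX K hK1 hK2 a b ha hb => ?_⟩
  have hX1 : 1 ≤ X := ((le_max_right _ _).trans (le_max_right _ _)).trans hX
  have hX1r : (1 : ℝ) ≤ X := by exact_mod_cast hX1
  have hpow : (X : ℝ) ^ (1 / 3 + 1 / e : ℝ) ≤ K := by
    refine le_trans ?_ hK1
    apply Real.rpow_le_rpow_of_exponent_le hX1r
    linarith
  have hC := hN₁ X (((le_max_left _ _).trans (le_max_right _ _)).trans hX)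
  have haX : a ≤ X := by exact_mod_cast ha.trans hC
  have hbX : b ≤ X := by exact_mod_cast hb.trans hC
  refine le_trans ?_ (h X (((le_max_left _ _).trans (le_max_left _ _)).trans hX) K hpow hK2 a b ha hb)
  unfold exceptions
  refine Nat.cast_le.2 (card_le_card fun v hv => ?_)
  have hv := mem_filter.1 hv
  refine mem_filter.2 ⟨hv.1, hv.2.1, fun hg => hv.2.2 ⟨?_, hg⟩⟩
  have hv1 := mem_Icc.1 (mem_product.1 hv.1).2
  obtain ⟨p₀, q₀, hpq⟩ := exists_solution hv.2.1
  refine (hS X (((le_max_right _ _).trans (le_max_left _ _)).trans hX) a b v.2 p₀ q₀ hv.2.1 haX hbX ?_ hpq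
    ⌈(Real.log X) ^ 3⌉₊ (Nat.le_ceil _)).2.1
  have h1 : |v.2| ≤ (X : ℤ) := abs_le.2 ⟨by linarith [hv1.1], hv1.2⟩
  have h2 : (1 : ℤ) ≤ X := by exact_mod_cast hX1
  nlinarith

end Pool.Agent.Results.MP_bf63dc_nt.AlmostAllShortIntervals
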