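import Pool.Agent.helper24_UT.Ch11

set_option autoImplicit false

/-!
# The formula of Hardy and Littlewood for `a p - b q = c`, for almost all triples `(a, b, c)`

Let `ε > 0` and `A` be fixed, `H` large and `H ^ ε ≤ M, N ≤ H`. For all but at most `(M N) ^ 2 / (log H) ^ A` of the triples
`(a, b, c)` with `1 ≤ a ≤ M`, `1 ≤ b ≤ N`, `|c| ≤ a b` which satisfy the hypotheses of the question (there are about
`(M N) ^ 2` of them, up to a constant factor) the number of the prime solutions of `a p - b q = c` with `q ≤ X` is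
`(1 + θ (log H) ^ (-A)) 𝔖(a, b, c) ∑ 1 / (log m log n)`, `|θ| ≤ 1`, where the sum is over all solutions of `a m - b n = c` in
integers `m ≥ 2`, `2 ≤ n ≤ X`, and `𝔖(a, b, c)` is the full singular series, for all `X` with

`a (log H) ^ B ≤ X ≤ a min (M, N) ^ (2 - ε)`.

So in almost all equations the primes appear with the expected frequency from `X / a ≥ (log H) ^ B` on, that is as soon as
the predicted number of solutions is a power of `log H`, and up to nearly `a` times the square of the sides. The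
primes `q` and `p` are here in progressions to the moduli `a` and `b`, which may be nearly as large as they are.

Proof. The solutions are `p = p₀ + b t`, `q = q₀ + a t` with `b < p₀ ≤ 2 b` and `0 < q₀ ≤ 3 a`, and `(a, b, c)` determines
`(b, p₀, a, q₀)`; so this is the case of two linear polynomials of a theorem on the number of the primes in almost all systems
`b_i t + c_i`, `b_i, c_i ≤ R_i` (`Pool.Agent.helper24_UT.Ch.t_PSI4`). Its proof rests on a bilinear estimate: the primes minus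
their sieve model do not correlate along `b t + c` with any given bounded sequence, for almost all `(b, c)`. It follows by
Parseval's identity from the bound `∑_{x ≤ X} |∑_{x < m ≤ x + K} D(m) e(m α)| ^ 2 ≤ X K ^ 2 / (log X) ^ A`, `K ≥ X ^ (1 / 3 + ε)`, for the
difference `D` of the primes and the model (`Pool.Agent.helper24_UT.Ch.t_MK`; method of Mikawa).
-/

namespace Pool.Agent.Results.MP_bf63dc_nt.AlmostAllTriples

open Finset

/-- the hypotheses of the question -/
def Adm (a b : ℕ) (c : ℤ) : Prop :=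
  1 ≤ a ∧ 1 ≤ b ∧ c ≠ 0 ∧ IsCoprime (a : ℤ) b ∧ IsCoprime (a : ℤ) c ∧ IsCoprime (b : ℤ) c ∧ ¬ (Odd a ∧ Odd b ∧ Odd c)

/-- the singular series of `a p - b q = c` -/
noncomputable def series (a b : ℕ) (c : ℤ) : ℝ :=
  ∏' p : Nat.Primes, if ((p : ℕ) : ℤ) ∣ a * b * c then (1 - 1 / ((p : ℕ) : ℝ))⁻¹ else 1 - 1 / (((p : ℕ) : ℝ) - 1) ^ 2

/-- the number of the prime solutions `(p, q)` of `a p - b q = c` with `q ≤ X` -/
noncomputable def count (a b : ℕ) (c : ℤ) (X : ℕ) : ℕ :=
  {x : ℕ × ℕ | x.1.Prime ∧ x.2.Prime ∧ (a : ℤ) * x.1 - b * x.2 = c ∧ x.2 ≤ X}.ncard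

open Classical in
/-- the sum of `1 / (log m log n)` over all solutions of `a m - b n = c` in integers `m ≥ 2`, `2 ≤ n ≤ X` -/
noncomputable def expected (a b : ℕ) (c : ℤ) (X : ℕ) : ℝ :=
  ∑ n ∈ (Icc 2 X).filter (fun n : ℕ => (a : ℤ) ∣ c + b * n ∧ 2 * (a : ℤ) ≤ c + b * n),
    1 / (Real.log (((c : ℝ) + b * n) / a) * Real.log n)

/-- the asymptotic formula for all `X` in the range, with a positive singular series -/
def Good (ε : ℝ) (A B H M N a b : ℕ) (c : ℤ) : Prop :=
  0 < series a b c ∧ ∀ X : ℕ, a * Real.log H ^ B ≤ X → (X : ℝ) ≤ a * (M : ℝ) ^ (2 - ε) → (X : ℝ) ≤ a * (N : ℝ) ^ (2 - ε) →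
    |(count a b c X : ℝ) - series a b c * expected a b c X| ≤ series a b c * expected a b c X / Real.log H ^ A

theorem exists_solution {a b : ℕ} {c : ℤ} (h : Adm a b c) : ∃ p q : ℕ, (a : ℤ) * p - b * q = c := by
  obtain ⟨ha, hb, _, hab, _⟩ := h
  obtain ⟨u, v, huv⟩ := hab
  set k : ℤ := |c * u| + |c * v| with hk
  have hk0 : 0 ≤ k := by positivity
  have h1 : 0 ≤ c * u + b * k := by
    have h2 : -|c * u| ≤ c * u := neg_abs_le _
    have h3 : k ≤ b * k := by
      have : (1 : ℤ) ≤ b := by exact_mod_cast hb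
      nlinarith
    have h4 : 0 ≤ |c * v| := abs_nonneg _
    linarith
  have h2 : 0 ≤ -(c * v) + a * k := by
    have h2 : c * v ≤ |c * v| := le_abs_self _
    have h3 : k ≤ a * k := by
      have : (1 : ℤ) ≤ a := by exact_mod_cast ha
      nlinarith
    have h4 : 0 ≤ |c * u| := abs_nonneg _
    linarith
  refine ⟨(c * u + b * k).toNat, (-(c * v) + a * k).toNat, ?_⟩
  rw [Int.toNat_of_nonneg h1, Int.toNat_of_nonneg h2]
  calc (a : ℤ) * (c * u + b * k) - b * (-(c * v) + a * k) = c * (u * a + v * b) := by ring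
    _ = c := by rw [huv, mul_one]

open Classical in
/-- the number of the triples with `a ≤ M`, `b ≤ N`, `|c| ≤ a b` which satisfy the hypotheses of the question and for which
the asymptotic formula fails -/
noncomputable def exceptions (ε : ℝ) (A B H M N : ℕ) : ℕ :=
  ((Icc 1 M ×ˢ Icc 1 N ×ˢ Icc (-(M * N : ℤ)) (M * N)).filter (fun x : ℕ × ℕ × ℤ =>
    |x.2.2| ≤ x.1 * x.2.1 ∧ Adm x.1 x.2.1 x.2.2 ∧ ¬ Good ε A B H M N x.1 x.2.1 x.2.2)).card

/-- **The formula of Hardy and Littlewood for the prime solutions of `a p - b q = c`, for almost all `(a, b, c)`.** -/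
theorem result (ε : ℝ) (A : ℕ) (hε : 0 < ε) : ∃ B H₀ : ℕ, ∀ H : ℕ, H₀ ≤ H → ∀ M N : ℕ,
    (H : ℝ) ^ ε ≤ M → M ≤ H → (H : ℝ) ^ ε ≤ N → N ≤ H →
    (exceptions ε A B H M N : ℝ) ≤ ((M : ℝ) * N) ^ 2 / Real.log H ^ A := by
  classical
  obtain ⟨e, he⟩ := exists_nat_gt (1 / ε)
  have he1 : 1 ≤ e := by
    have h1 : 0 < 1 / ε := by positivity
    have h2 : (0 : ℝ) < e := h1.trans he
    exact_mod_cast h2
  have he0 : (0 : ℝ) < e := by exact_mod_cast he1
  have hle : 1 / (e : ℝ) ≤ ε := by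
    rw [div_le_iff₀ he0]
    rw [div_lt_iff₀ hε] at he
    linarith
  obtain ⟨B, H₀, h⟩ := Pool.Agent.helper24_UT.Ch.t_R12 e A he1
  obtain ⟨H₁, hS⟩ := Pool.Agent.helper24_UT.Ser3.main
  refine ⟨B, max (max H₀ H₁) 1, fun H hH M N hM1 hM2 hN1 hN2 => ?_⟩
  have hH1 : (1 : ℝ) ≤ H := by exact_mod_cast (le_max_right _ _).trans hH
  have hM1' : (H : ℝ) ^ (1 / e : ℝ) ≤ M := (Real.rpow_le_rpow_of_exponent_le hH1 hle).trans hM1
  have hN1' : (H : ℝ) ^ (1 / e : ℝ) ≤ N := (Real.rpow_le_rpow_of_exponent_le hH1 hle).trans hN1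
  have hMr : (1 : ℝ) ≤ M := (Real.one_le_rpow hH1 hε.le).trans hM1
  have hNr : (1 : ℝ) ≤ N := (Real.one_le_rpow hH1 hε.le).trans hN1
  refine le_trans ?_ (h H (((le_max_left _ _).trans (le_max_left _ _)).trans hH) M N hM1' hM2 hN1' hN2)
  unfold exceptions
  refine Nat.cast_le.2 (card_le_card fun x hx => ?_)
  have hx := mem_filter.1 hx
  refine mem_filter.2 ⟨hx.1, hx.2.1, hx.2.2.1, fun hc => hx.2.2.2 ⟨?_, fun X hX1 hX2 hX3 => ?_⟩⟩
  · have hx1 := mem_product.1 hx.1
    have hx2 := mem_product.1 hx1.2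
    have ha := mem_Icc.1 hx1.1
    have hb := mem_Icc.1 hx2.1
    obtain ⟨p₀, q₀, hpq⟩ := exists_solution hx.2.2.1
    refine (hS H (((le_max_right _ _).trans (le_max_left _ _)).trans hH) x.1 x.2.1 x.2.2 p₀ q₀ hx.2.2.1
      (ha.2.trans hM2) (hb.2.trans hN2) ?_ hpq ⌈(Real.log H) ^ 3⌉₊ (Nat.le_ceil _)).2.1
    refine hx.2.1.trans ?_
    rw [sq]
    have h1 : (x.1 : ℤ) ≤ H := by exact_mod_cast ha.2.trans hM2
    have h2 : (x.2.1 : ℤ) ≤ H := by exact_mod_cast hb.2.trans hN2
    exact mul_le_mul h1 h2 (by positivity) (by positivity)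
  · refine hc X hX1 (hX2.trans ?_) (hX3.trans ?_)
    · apply mul_le_mul_of_nonneg_left _ (Nat.cast_nonneg _)
      apply Real.rpow_le_rpow_of_exponent_le hMr
      linarith
    · apply mul_le_mul_of_nonneg_left _ (Nat.cast_nonneg _)
      apply Real.rpow_le_rpow_of_exponent_le hNr
      linarith

end Pool.Agent.Results.MP_bf63dc_nt.AlmostAllTriples
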