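import Mathlib
import Pool.Agent.H35_SL.Gen
import Pool.Agent.H35_SL.Itr

/-!
# The proportion of the solvable equations `a p - b q = c'` near the first three iterates, at every scale

For `a, b, c`, a large finite set `V` of natural numbers and a scale `X` let `γ(a, b, c)` be the proportion of the
pairs `(u, v) ∈ V × V` for which, with `c' = c + W (a u - b v)`, the triple `(a, b, c')` satisfies the hypotheses of
the question and for at least `X / (log X) ^ C` primes `p ≤ X` there is a prime `q ≤ X` with `a p - b q = c'`.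
Then, up to an arbitrarily small `ε`, for every scale `X ≥ X₀`:

* for `T ≥ 4` linear forms `m_i n + r_i` with different slopes and without fixed prime divisor the sum of
  `γ(a_ij, b_ij, a_ij r_i - b_ij r_j)`, `a_ij = m_j / (m_i, m_j)`, `b_ij = m_i / (m_i, m_j)`, over `i < j` is at least
  `⌈T (T - 3) / 6⌉`;
* in particular `3 γ(a, b, c) + 2 γ(a ², b ², c (a + b)) + γ(a ³, b ³, c (a ² + a b + b ²)) ≥ 1` for all `(a, b, c)`
  which satisfy the hypotheses of the question, `a ≠ b`, and `3 ∣ a b c` or `a ≢ b (mod 3)`; these are the equations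
  for the first three iterates of `x ↦ (b x + c) / a`.

`C` is absolute, the size of `V` depends on `T` and `ε` only, `W` and `X₀` depend on the coefficients only; the
constants `r_i` and `c` may grow with `X`.

From the starting files: the Maynard-Tao theorem for four classes of linear forms
(`Pool.Agent.Y827.RO.lamRD`) and the lemma on complete multipartite subsystems (`Pool.Agent.H362R2.CM.box_lemma`).
-/

set_option autoImplicit false

namespace Pool.Agent.Results.MP_bf63dc_nt.ProportionOfLines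

open Finset
open Pool.Agent.H35_SL (general4 iter_exists iter_adm R)
open Pool.Agent.H35_SD (ec)

/-- the number of the primes `p ≤ X` for which there is a prime `q ≤ X` with `a p - b q = c` -/
noncomputable def count (a b : ℕ) (c : ℤ) (X : ℕ) : ℕ :=
  {p : ℕ | p ≤ X ∧ p.Prime ∧ ∃ q : ℕ, q ≤ X ∧ q.Prime ∧ (a : ℤ) * p - b * q = c}.ncard

/-- the hypotheses of the question -/
def Adm (a b : ℕ) (c : ℤ) : Prop :=
  1 ≤ a ∧ 1 ≤ b ∧ c ≠ 0 ∧ Nat.Coprime a b ∧ IsCoprime (a : ℤ) c ∧ IsCoprime (b : ℤ) c ∧ ¬ (Odd a ∧ Odd b ∧ Odd c)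

open Classical in
/-- the proportion of the pairs `(u, v)` of elements of `V` for which the equation `a p - b q = c'`,
`c' = c + W (a u - b v)`, satisfies the hypotheses of the question and has many solutions in primes up to `X` -/
noncomputable def γ (C W X : ℕ) (V : Finset ℕ) (a b : ℕ) (c : ℤ) : ℝ :=
  (((V ×ˢ V).filter (fun q => Adm a b (c + W * ((a : ℤ) * q.1 - b * q.2)) ∧
    (X : ℝ) / Real.log X ^ C ≤ (count a b (c + W * ((a : ℤ) * q.1 - b * q.2)) X : ℝ))).card : ℝ) /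
      (V.card : ℝ) ^ 2

theorem result : ∃ (C : ℕ) (n₀ : ℕ → ℝ → ℕ),
    (∀ T : ℕ, 4 ≤ T → ∀ m : Fin T → ℕ, (∀ i, 1 ≤ m i) → Function.Injective m → ∃ W X₀ : ℕ, 1 ≤ W ∧
      ∀ (ε : ℝ) (X : ℕ) (V : Finset ℕ) (r : Fin T → ℤ), 0 < ε → X₀ ≤ X → n₀ T ε ≤ V.card →
        (∀ p : ℕ, p.Prime → ∃ n : ℤ, ∀ i, ¬ (p : ℤ) ∣ m i * n + r i) → (∀ i, 100 * ((W : ℤ) * |r i|) ≤ X) →
        (∀ v ∈ V, 4 * (W * (W * v)) ≤ X) →
          (((T * (T - 3) + 5) / 6 : ℕ) : ℝ) - ε ≤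
            ∑ q ∈ (univ : Finset (Fin T × Fin T)).filter (fun q => q.1 < q.2),
              γ C W X V (m q.2 / Nat.gcd (m q.1) (m q.2)) (m q.1 / Nat.gcd (m q.1) (m q.2))
                (((m q.2 / Nat.gcd (m q.1) (m q.2) : ℕ) : ℤ) * r q.1 -
                  ((m q.1 / Nat.gcd (m q.1) (m q.2) : ℕ) : ℤ) * r q.2)) ∧
    (∀ a b : ℕ, a ≠ b → ∃ W B X₀ : ℕ, 1 ≤ W ∧
      ∀ (ε : ℝ) (X : ℕ) (V : Finset ℕ) (c : ℤ), 0 < ε → X₀ ≤ X → n₀ 4 ε ≤ V.card →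
        Adm a b c → ((3 : ℤ) ∣ a * b * c ∨ ¬ (3 : ℤ) ∣ (a : ℤ) - b) → (B : ℤ) * |c| ≤ X →
        (∀ v ∈ V, 4 * (W * (W * v)) ≤ X) →
          1 - ε ≤ 3 * γ C W X V a b c + 2 * γ C W X V (a ^ 2) (b ^ 2) (c * (a + b)) +
            γ C W X V (a ^ 3) (b ^ 3) (c * ((a : ℤ) ^ 2 + a * b + (b : ℤ) ^ 2))) := by
  classical
  obtain ⟨K, C, hgen⟩ := general4
  have hn : ∀ (T : ℕ) (ε : ℝ), ∃ n₀ : ℕ, 0 < ε →
      (4 ≤ T → ∀ (α : Type) (V : Finset α)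
        (N : Fin T × α → Fin T × α → Prop), n₀ ≤ V.card → (∀ p q, N p q → N q p) →
        (∀ (s : Fin 4 → Fin T), Function.Injective s → ∀ (A : Fin 4 → Fin K → α), (∀ g i, A g i ∈ V) →
          (∀ g, Function.Injective (A g)) → ¬ ∀ g g', g ≠ g' → ∀ i i', N (s g, A g i) (s g', A g' i')) →
        (R T : ℝ) - ε ≤ ∑ q ∈ (univ : Finset (Fin T × Fin T)).filter (fun q => q.1 < q.2),
          (ec V (fun u v => ¬ N (q.1, u) (q.2, v)) : ℝ) / (V.card : ℝ) ^ 2) := by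
    intro T ε
    by_cases hε : 0 < ε
    · by_cases hT : 4 ≤ T
      · obtain ⟨n₂, hn₂⟩ := Pool.Agent.H35_SL.comb T K hT ε hε
        exact ⟨n₂, fun _ _ => hn₂⟩
      · exact ⟨0, fun _ h => absurd h hT⟩
    · exact ⟨0, fun h => absurd h hε⟩
  choose n₀ hn₀ using hn
  have key : ∀ T : ℕ, 4 ≤ T → ∀ m : Fin T → ℕ, (∀ i, 1 ≤ m i) → ∀ a b g : Fin T → Fin T → ℕ,
      (∀ i j, i < j → 1 ≤ g i j ∧ g i j * b i j = m i ∧ g i j * a i j = m j ∧
        Nat.Coprime (a i j) (b i j) ∧ a i j ≠ b i j) → ∃ W X₀ : ℕ, 1 ≤ W ∧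
      ∀ (ε : ℝ) (X : ℕ) (V : Finset ℕ) (r : Fin T → ℤ), 0 < ε → X₀ ≤ X → n₀ T ε ≤ V.card →
        (∀ p : ℕ, p.Prime → ∃ n : ℤ, ∀ i, ¬ (p : ℤ) ∣ m i * n + r i) → (∀ i, 100 * ((W : ℤ) * |r i|) ≤ X) →
        (∀ v ∈ V, 4 * (W * (W * v)) ≤ X) →
          (R T : ℝ) - ε ≤
            ∑ q ∈ (univ : Finset (Fin T × Fin T)).filter (fun q => q.1 < q.2),
              γ C W X V (a q.1 q.2) (b q.1 q.2) ((a q.1 q.2 : ℤ) * r q.1 - (b q.1 q.2 : ℤ) * r q.2) := by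
    intro T hT m hm a b g hab
    obtain ⟨W, X₀, hW, h⟩ := hgen (Fin T) inferInstance m hm
    refine ⟨W, X₀, hW, fun ε X V r hε hX hV hadm hrX hVW => ?_⟩
    obtain ⟨N, hsym, hbox, hcross⟩ := h r hadm X hX hrX V hVW
    refine ((hn₀ T ε hε) hT ℕ V N hV hsym (fun s _ A h1 h2 => hbox s A h1 h2)).trans ?_
    refine sum_le_sum fun q hq => ?_
    obtain ⟨h1, h2, h3, h4, h5⟩ := hab q.1 q.2 (mem_filter.1 hq).2
    unfold ec γ
    apply div_le_div_of_nonneg_right _ (by positivity)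
    apply Nat.cast_le.2
    apply card_le_card
    intro x hx
    simp only [mem_filter] at hx ⊢
    obtain ⟨hx1, hx2⟩ := mem_product.1 hx.1
    exact ⟨hx.1, hcross q.1 q.2 (g q.1 q.2) (a q.1 q.2) (b q.1 q.2) h1 h2 h3 h4 h5 x.1 hx1 x.2 hx2 hx.2⟩
  refine ⟨C, n₀, ?_, ?_⟩
  · intro T hT m hm hinj
    refine key T hT m hm (fun i j => m j / Nat.gcd (m i) (m j)) (fun i j => m i / Nat.gcd (m i) (m j))
      (fun i j => Nat.gcd (m i) (m j)) ?_
    intro i j hij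
    have hg : 0 < Nat.gcd (m i) (m j) := Nat.gcd_pos_of_pos_left _ (hm i)
    refine ⟨hg, Nat.mul_div_cancel' (Nat.gcd_dvd_left _ _), Nat.mul_div_cancel' (Nat.gcd_dvd_right _ _),
      (Nat.coprime_div_gcd_div_gcd hg).symm, ?_⟩
    intro h
    have h2 := congrArg (fun t => Nat.gcd (m i) (m j) * t) h
    simp only [Nat.mul_div_cancel' (Nat.gcd_dvd_left (m i) (m j)),
      Nat.mul_div_cancel' (Nat.gcd_dvd_right (m i) (m j))] at h2
    exact hij.ne' (hinj h2)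
  intro a b hne
  by_cases hadm0 : 1 ≤ a ∧ 1 ≤ b ∧ Nat.Coprime a b
  swap
  · refine ⟨1, 0, 0, le_rfl, fun ε X V c _ _ _ hadm => absurd ⟨hadm.1, hadm.2.1, hadm.2.2.2.1⟩ hadm0⟩
  obtain ⟨ha, hb, hab⟩ := hadm0
  obtain ⟨W, X₀, hW, h⟩ := key 4 le_rfl (fun i => a ^ (i : ℕ) * b ^ (3 - (i : ℕ)))
    (fun i => Nat.mul_pos (pow_pos ha _) (pow_pos hb _))
    (fun i j => a ^ ((j : ℕ) - i)) (fun i j => b ^ ((j : ℕ) - i)) (fun i j => a ^ (i : ℕ) * b ^ (3 - (j : ℕ))) (by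
    intro i j hij
    have h3 : (i : ℕ) < j := hij
    have h4 := j.isLt
    refine ⟨Nat.mul_pos (pow_pos ha _) (pow_pos hb _), ?_, ?_, hab.pow _ _, ?_⟩
    · show a ^ (i : ℕ) * b ^ (3 - (j : ℕ)) * b ^ ((j : ℕ) - i) = a ^ (i : ℕ) * b ^ (3 - (i : ℕ))
      rw [mul_assoc, ← pow_add]
      congr 2
      omega
    · show a ^ (i : ℕ) * b ^ (3 - (j : ℕ)) * a ^ ((j : ℕ) - i) = a ^ (j : ℕ) * b ^ (3 - (j : ℕ))
      rw [mul_right_comm, ← pow_add]
      congr 2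
      omega
    · intro h5
      exact hne (Nat.pow_left_injective (by omega : (j : ℕ) - i ≠ 0) h5))
  refine ⟨W, 200 * (W * (a ^ 2 + a + 1)), max X₀ (200 * (W * (a ^ 3 * b ^ 3))), hW,
    fun ε X V c hε hX hV hadm h3 hcX hVW => ?_⟩
  obtain ⟨r0, r1, r2, r3, e0, e1, e2, m0, m1, m2, m3⟩ := iter_exists ha hb hab c
  have hX1 : X₀ ≤ X := (le_max_left _ _).trans hX
  have hX2 : (200 : ℤ) * (W * ((a : ℤ) ^ 3 * b ^ 3)) ≤ X := by
    exact_mod_cast (le_max_right X₀ (200 * (W * (a ^ 3 * b ^ 3)))).trans hX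
  have hbd : ∀ y : ℤ, |y| ≤ (a : ℤ) ^ 3 * b ^ 3 + (a ^ 2 + a + 1) * |c| → 100 * ((W : ℤ) * |y|) ≤ X := by
    intro y hy
    have h4 : (W : ℤ) * |y| ≤ W * ((a : ℤ) ^ 3 * b ^ 3 + (a ^ 2 + a + 1) * |c|) :=
      mul_le_mul_of_nonneg_left hy (by positivity)
    push_cast at hcX
    have h5 : (200 : ℤ) * ((W : ℤ) * ((a : ℤ) ^ 3 * (b : ℤ) ^ 3 + ((a : ℤ) ^ 2 + a + 1) * |c|)) =
        (200 : ℤ) * ((W : ℤ) * ((a : ℤ) ^ 3 * (b : ℤ) ^ 3)) +
          200 * ((W : ℤ) * ((a : ℤ) ^ 2 + a + 1)) * |c| := by ring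
    linarith
  have h1 := h ε X V ![r0, r1, r2, r3] hε hX1 hV (by
      intro p hp
      obtain ⟨n, h4, h5, h6, h7⟩ := iter_adm hab hadm.2.2.2.2.1 hadm.2.2.2.2.2.1 hadm.2.2.2.2.2.2 h3 e0 e1 e2 p hp
      refine ⟨n, fun i => ?_⟩
      fin_cases i
      · simpa using h4
      · simpa using h5
      · simpa using h6
      · simpa using h7) (by
      intro i
      fin_cases i
      · exact hbd _ m0
      · exact hbd _ m1
      · exact hbd _ m2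
      · exact hbd _ m3) hVW
  have h2 : (univ : Finset (Fin 4 × Fin 4)).filter (fun q => q.1 < q.2) =
      {(0, 1), (0, 2), (0, 3), (1, 2), (1, 3), (2, 3)} := by decide
  rw [h2, sum_insert (by decide), sum_insert (by decide), sum_insert (by decide), sum_insert (by decide),
    sum_insert (by decide), sum_singleton] at h1
  have g0 : (![r0, r1, r2, r3] : Fin 4 → ℤ) 0 = r0 := rfl
  have g1 : (![r0, r1, r2, r3] : Fin 4 → ℤ) 1 = r1 := rfl
  have g2 : (![r0, r1, r2, r3] : Fin 4 → ℤ) 2 = r2 := rfl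
  have g3 : (![r0, r1, r2, r3] : Fin 4 → ℤ) 3 = r3 := rfl
  have f1 : ((1 : Fin 4) : ℕ) - ((0 : Fin 4) : ℕ) = 1 := rfl
  have f2 : ((2 : Fin 4) : ℕ) - ((0 : Fin 4) : ℕ) = 2 := rfl
  have f3 : ((3 : Fin 4) : ℕ) - ((0 : Fin 4) : ℕ) = 3 := rfl
  have f4 : ((2 : Fin 4) : ℕ) - ((1 : Fin 4) : ℕ) = 1 := rfl
  have f5 : ((3 : Fin 4) : ℕ) - ((1 : Fin 4) : ℕ) = 2 := rfl
  have f6 : ((3 : Fin 4) : ℕ) - ((2 : Fin 4) : ℕ) = 1 := rfl
  simp only [g0, g1, g2, g3, f1, f2, f3, f4, f5, f6, pow_one] at h1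
  have i1 : ((a ^ 2 : ℕ) : ℤ) * r0 - ((b ^ 2 : ℕ) : ℤ) * r2 = c * (a + b) := by
    push_cast
    linear_combination (a : ℤ) * e0 + b * e1
  have i2 : ((a ^ 2 : ℕ) : ℤ) * r1 - ((b ^ 2 : ℕ) : ℤ) * r3 = c * (a + b) := by
    push_cast
    linear_combination (a : ℤ) * e1 + b * e2
  have i3 : ((a ^ 3 : ℕ) : ℤ) * r0 - ((b ^ 3 : ℕ) : ℤ) * r3 = c * ((a : ℤ) ^ 2 + a * b + (b : ℤ) ^ 2) := by
    push_cast
    linear_combination (a : ℤ) ^ 2 * e0 + a * b * e1 + (b : ℤ) ^ 2 * e2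
  rw [e0, e1, e2, i1, i2, i3] at h1
  have h4 : R 4 = 1 := by decide
  rw [h4] at h1
  push_cast at h1
  linarith

end Pool.Agent.Results.MP_bf63dc_nt.ProportionOfLines
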