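import Mathlib
import Pool.Agent.Helper593_PS.Inf

/-!
# `√δ + √γ ≥ 1`: prime solutions of `a p - b q = c` against differences of primes

Let `a, b, c` be pairwise coprime and not all odd, and let `V` be any set of at least `n₀(ε)` multiples of an
absolute constant `W`. The integers `c + a b (u - v)`, `u, v ∈ V`, are again constants of the question. Let

* `γ` be the proportion of the pairs `(u, v) ∈ V²` for which `a p - b q = c + a b (u - v)` has infinitely many
  solutions in primes `p`, `q`, and
* `δ` the proportion of the pairs `(u, v) ∈ V²` for which `u = v`, or `b (v - u) = p' - p` for infinitely many primes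
  `p, p'` with `a p ≡ c (mod b)`, or `a (v - u) = q' - q` for infinitely many primes `q, q'` with
  `b q ≡ -c (mod a)` (the congruences say that `p`, respectively `q`, is in the residue class of the solutions).

Then `√δ + √γ ≥ 1 - ε` and `δ + γ ≥ 2/3 - ε`, where `n₀(ε)` does not depend on `a, b, c`. For `a = b = 1`, `c = 2`:
`γ` is the proportion of the integers `2 + (u - v)` and `δ` the proportion of the integers `v - u` which are
differences of infinitely many pairs of primes.

So if all (or almost all) of the equations `a p - b q = c + a b (u - v)` have only finitely many prime solutions then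
almost all of the differences are differences of primes in these classes; and if at most a third of these are, then
a third of the equations have infinitely many prime solutions. The same holds at every scale `N`, with at least
`N / (log N)^C` solutions, uniformly in `V` and in `|c| ≤ N / 100`.

Proof: by the coloured Maynard-Tao theorem with the constant `18/5`, uniform in the linear forms
(`Pool.Agent.Y827.RO.lamRD`, starting files), two of any four large disjoint families of the forms
`p₀ + b (n + u)`, `q₀ + a (n + v)`, `a p₀ - b q₀ = c`, contain forms which are prime together often. The passage to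
the proportions is the inequality for two copies of a graph of helper35 (`Pool.Agent.H35_SD.comb`).
-/

set_option autoImplicit false

namespace Pool.Agent.Results.MP_bf63dc_nt.SolutionsAndDifferences

/-- the number of the prime solutions `(p, q)` of `a p - b q = c` with `p ≤ X` -/
noncomputable def solutions (a b : ℕ) (c : ℤ) (X : ℕ) : ℕ :=
  {x : ℕ × ℕ | x.1.Prime ∧ x.2.Prime ∧ (a : ℤ) * x.1 - b * x.2 = c ∧ x.1 ≤ X}.ncard

/-- the number of the primes `p ≤ X` with `k p ≡ c (mod m)` for which `p + h` is a prime, too -/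
noncomputable def differences (k m : ℕ) (c h : ℤ) (X : ℕ) : ℕ :=
  {p : ℕ | p.Prime ∧ p ≤ X ∧ (m : ℤ) ∣ k * p - c ∧ ∃ q : ℕ, q.Prime ∧ (q : ℤ) = p + h}.ncard

open Classical in
/-- the proportion of the pairs `(u, v)` of elements of `V` with `u = v`, or with at least `N / (log N) ^ C` primes
`p ≤ 2 b N`, `a p ≡ c (mod b)`, for which `p + b (v - u)` is prime, or with at least `N / (log N) ^ C` primes
`q ≤ 2 a N`, `b q ≡ -c (mod a)`, for which `q + a (v - u)` is prime -/
noncomputable def δ (a b : ℕ) (c : ℤ) (C N : ℕ) (V : Finset ℕ) : ℝ :=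
  (((V ×ˢ V).filter (fun x => x.1 = x.2 ∨
    (N : ℝ) / Real.log N ^ C ≤ (differences a b c (b * ((x.2 : ℤ) - x.1)) (2 * b * N) : ℝ) ∨
    (N : ℝ) / Real.log N ^ C ≤ (differences b a (-c) (a * ((x.2 : ℤ) - x.1)) (2 * a * N) : ℝ))).card : ℝ) /
    (V.card : ℝ) ^ 2

open Classical in
/-- the proportion of the pairs `(u, v)` of elements of `V` for which `c + a b (u - v) = 0` or
`a p - b q = c + a b (u - v)` has at least `N / (log N) ^ C` prime solutions with `p ≤ 2 b N` -/
noncomputable def γ (a b : ℕ) (c : ℤ) (C N : ℕ) (V : Finset ℕ) : ℝ :=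
  (((V ×ˢ V).filter (fun x => c + a * b * ((x.1 : ℤ) - x.2) = 0 ∨
    (N : ℝ) / Real.log N ^ C ≤ (solutions a b (c + a * b * ((x.1 : ℤ) - x.2)) (2 * b * N) : ℝ))).card : ℝ) /
    (V.card : ℝ) ^ 2

/-- `a p - b q = c` has infinitely many prime solutions -/
def Solvable (a b : ℕ) (c : ℤ) : Prop :=
  {x : ℕ × ℕ | x.1.Prime ∧ x.2.Prime ∧ (a : ℤ) * x.1 - b * x.2 = c}.Infinite

/-- there are infinitely many primes `p` with `k p ≡ c (mod m)` for which `p + h` is prime -/
def Difference (k m : ℕ) (c h : ℤ) : Prop :=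
  {p : ℕ | p.Prime ∧ (m : ℤ) ∣ k * p - c ∧ ∃ q : ℕ, q.Prime ∧ (q : ℤ) = p + h}.Infinite

open Classical in
/-- the proportion of the pairs `(u, v)` of elements of `V` with `u = v`, or with infinitely many primes `p`,
`a p ≡ c (mod b)`, for which `p + b (v - u)` is prime, or with infinitely many primes `q`, `b q ≡ -c (mod a)`, for
which `q + a (v - u)` is prime -/
noncomputable def δ' (a b : ℕ) (c : ℤ) (V : Finset ℕ) : ℝ :=
  (((V ×ˢ V).filter (fun x => x.1 = x.2 ∨ Difference a b c (b * ((x.2 : ℤ) - x.1)) ∨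
    Difference b a (-c) (a * ((x.2 : ℤ) - x.1)))).card : ℝ) / (V.card : ℝ) ^ 2

open Classical in
/-- the proportion of the pairs `(u, v)` of elements of `V` for which `a p - b q = c + a b (u - v)` has infinitely
many prime solutions -/
noncomputable def γ' (a b : ℕ) (c : ℤ) (V : Finset ℕ) : ℝ :=
  (((V ×ˢ V).filter (fun x => Solvable a b (c + a * b * ((x.1 : ℤ) - x.2)))).card : ℝ) / (V.card : ℝ) ^ 2

/-- There are absolute constants `W ≥ 1`, `C` and for every `ε > 0` an `n₀` such that for all coprime `a, b ≥ 1`: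
(1) for all large `N`, all `c` coprime to `a` and `b` with `|c| ≤ N / 100` and `a, b, c` not all odd, and all sets `V`
of at least `n₀` multiples of `W` in `[0, N / (10 a b)]`: `√δ + √γ ≥ 1 - ε` and `δ + γ ≥ 2 / 3 - ε`;
(2) for all `c` coprime to `a` and `b` with `a, b, c` not all odd and all finite sets `V` of at least `n₀` multiples of
`W`: `√δ' + √γ' ≥ 1 - ε` and `δ' + γ' ≥ 2 / 3 - ε`. -/
theorem result : ∃ W C : ℕ, 1 ≤ W ∧ ∀ ε : ℝ, 0 < ε → ∃ n₀ : ℕ, ∀ a b : ℕ, 1 ≤ a → 1 ≤ b →
    IsCoprime (a : ℤ) b →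
    (∃ N₀ : ℕ, ∀ N : ℕ, N₀ ≤ N → ∀ c : ℤ, 100 * |c| ≤ N → IsCoprime (a : ℤ) c →
      IsCoprime (b : ℤ) c → ¬ (Odd (a : ℤ) ∧ Odd (b : ℤ) ∧ Odd c) → ∀ V : Finset ℕ, n₀ ≤ V.card →
      (∀ v ∈ V, W ∣ v ∧ 10 * (a * b * v) ≤ N) →
      1 - ε ≤ Real.sqrt (δ a b c C N V) + Real.sqrt (γ a b c C N V) ∧
        2 / 3 - ε ≤ δ a b c C N V + γ a b c C N V) ∧
    ∀ c : ℤ, IsCoprime (a : ℤ) c → IsCoprime (b : ℤ) c → ¬ (Odd (a : ℤ) ∧ Odd (b : ℤ) ∧ Odd c) →
      ∀ V : Finset ℕ, n₀ ≤ V.card → (∀ v ∈ V, W ∣ v) →
      1 - ε ≤ Real.sqrt (δ' a b c V) + Real.sqrt (γ' a b c V) ∧ 2 / 3 - ε ≤ δ' a b c V + γ' a b c V :=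
  Pool.Agent.Helper593_PS.main2

end Pool.Agent.Results.MP_bf63dc_nt.SolutionsAndDifferences
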